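import Pool.Agent.Helper41.KV.GoalsC

/-!
# Project KV (`MP_66be51_an`), packet EXP

First two coefficients of the change of the bracket `Bk`.
-/

namespace Pool.Agent.Helper41.KV

open Real MeasureTheory

namespace EXPaux

/-- Smooth elements of `F3`. -/
def Sm (Φ : F3) : Prop := ContDiff ℝ (⊤ : ℕ∞) (fun p : ℝ × ℝ × ℝ => Φ p.1 p.2.1 p.2.2)

theorem Sm.add {Φ Ψ : F3} (h : Sm Φ) (h' : Sm Ψ) : Sm (Φ + Ψ) := ContDiff.add h h'

theorem Sm.sub {Φ Ψ : F3} (h : Sm Φ) (h' : Sm Ψ) : Sm (Φ - Ψ) := ContDiff.sub h h'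

theorem Sm.mul {Φ Ψ : F3} (h : Sm Φ) (h' : Sm Ψ) : Sm (Φ * Ψ) := ContDiff.mul h h'

theorem Sm.pow {Φ : F3} (h : Sm Φ) (n : ℕ) : Sm (Φ ^ n) := ContDiff.pow h n

theorem Sm.smul {Φ : F3} (c : ℝ) (h : Sm Φ) : Sm (c • Φ) := ContDiff.const_smul c h

theorem Sm.diffY {Φ : F3} (h : Sm Φ) (r l y : ℝ) : DifferentiableAt ℝ (fun y' => Φ r l y') y := by
  have h1 : ContDiff ℝ (⊤ : ℕ∞) (fun y : ℝ => ((r, l, y) : ℝ × ℝ × ℝ)) := by fun_prop
  exact ((ContDiff.comp h h1).differentiable (by simp)) y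

theorem Sm.diffR {Φ : F3} (h : Sm Φ) (r l y : ℝ) : DifferentiableAt ℝ (fun r' => Φ r' l y) r := by
  have h1 : ContDiff ℝ (⊤ : ℕ∞) (fun r : ℝ => ((r, l, y) : ℝ × ℝ × ℝ)) := by fun_prop
  exact ((ContDiff.comp h h1).differentiable (by simp)) r

theorem Sm.diffL {Φ : F3} (h : Sm Φ) (r l y : ℝ) : DifferentiableAt ℝ (fun l' => Φ r l' y) l := by
  have h1 : ContDiff ℝ (⊤ : ℕ∞) (fun l : ℝ => ((r, l, y) : ℝ × ℝ × ℝ)) := by fun_prop
  exact ((ContDiff.comp h h1).differentiable (by simp)) l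

theorem dY_add {Φ Ψ : F3} (h : Sm Φ) (h' : Sm Ψ) : dY (Φ + Ψ) = dY Φ + dY Ψ := by
  funext r l y
  exact deriv_fun_add (h.diffY r l y) (h'.diffY r l y)

theorem dY_sub {Φ Ψ : F3} (h : Sm Φ) (h' : Sm Ψ) : dY (Φ - Ψ) = dY Φ - dY Ψ := by
  funext r l y
  exact deriv_fun_sub (h.diffY r l y) (h'.diffY r l y)

theorem dY_lif (m : ℕ) (e : ℝ → ℝ → ℝ) : dY (lif m e) = lif m (fun l y => deriv (e l) y) := by
  funext r l y
  simp only [dY, lif]
  exact deriv_const_mul_field (r ^ m)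

theorem Dop_add (α : ℝ) {Φ Ψ : F3} (h : Sm Φ) (h' : Sm Ψ) :
    Dop α (Φ + Ψ) = Dop α Φ + Dop α Ψ := by
  funext r l y
  have e1 : deriv (fun r' => (Φ + Ψ) r' l y) r
      = deriv (fun r' => Φ r' l y) r + deriv (fun r' => Ψ r' l y) r :=
    deriv_fun_add (h.diffR r l y) (h'.diffR r l y)
  have e2 : deriv (fun l' => (Φ + Ψ) r l' y) l
      = deriv (fun l' => Φ r l' y) l + deriv (fun l' => Ψ r l' y) l :=
    deriv_fun_add (h.diffL r l y) (h'.diffL r l y)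
  simp only [Dop, Pi.add_apply] at e1 e2 ⊢
  rw [e1, e2]
  ring

theorem rDop_lif (α : ℝ) (m : ℕ) (e : ℝ → ℝ → ℝ) (r l y : ℝ) :
    r * Dop α (lif m e) r l y
      = r ^ (m + 1) * (2 * α * m * e l y + deriv (fun l' => e l' y) l) := by
  simp only [Dop, lif]
  have e1 : deriv (fun r' : ℝ => r' ^ m * e l y) r = (m * r ^ (m - 1)) * e l y := by
    rw [deriv_mul_const_field, deriv_pow_field]
  have e2 : deriv (fun l' => r ^ m * e l' y) l = r ^ m * deriv (fun l' => e l' y) l :=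
    deriv_const_mul_field (r ^ m)
  rw [e1, e2]
  rcases m with _ | m
  · simp
  · simp only [Nat.add_sub_cancel]
    ring

theorem num_mem (M : Submodule ℝ F3) (c : ℕ) [c.AtLeastTwo] {Φ : F3} (h : Φ ∈ M) :
    (OfNat.ofNat c : F3) * Φ ∈ M := by
  have e : (OfNat.ofNat c : F3) * Φ = (OfNat.ofNat c : ℝ) • Φ := by
    funext r l y
    simp only [Pi.mul_apply, Pi.smul_apply, Pi.ofNat_apply, smul_eq_mul]
  rw [e]
  exact M.smul_mem _ h

theorem Sm_num (c : ℕ) [c.AtLeastTwo] : Sm (OfNat.ofNat c : F3) := by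
  unfold Sm
  simp only [Pi.ofNat_apply]
  exact contDiff_const

theorem ident {R : Type*} [CommRing R] (q F w a1 a2 δ o k0 W1 : R) :
    ((q + (F + a1 + a2 + δ) + (w + o)) ^ 5 - (F + a1 + a2 + δ) ^ 5 - q ^ 5)
      - ((q + F + w) ^ 5 - F ^ 5 - q ^ 5)
      - 5 * q ^ 4 * (a1 + o)
      - (5 * q ^ 4 * a2 + 20 * q ^ 3 * (k0 + W1) * (a1 + o))
    = 5 * (q ^ 4 * δ)
      + 10 * (q ^ 3 * (2 * ((F - k0 + (w - W1)) * (a1 + a2 + δ + o))
          + 2 * ((k0 + W1) * (a2 + δ)) + (a1 + a2 + δ + o) * (a1 + a2 + δ + o)))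
      + 10 * (q ^ 2 * ((a1 + a2 + δ + o) * (3 * ((F + w) * (F + w))
          + 3 * ((F + w) * (a1 + a2 + δ + o)) + (a1 + a2 + δ + o) * (a1 + a2 + δ + o))))
      + 5 * (q * ((a1 + a2 + δ + o) * (4 * ((F + w) * ((F + w) * (F + w)))
          + 6 * ((F + w) * ((F + w) * (a1 + a2 + δ + o)))
          + 4 * ((F + w) * ((a1 + a2 + δ + o) * (a1 + a2 + δ + o)))
          + (a1 + a2 + δ + o) * ((a1 + a2 + δ + o) * (a1 + a2 + δ + o)))))
      + o * (5 * ((F + (a1 + a2 + δ)) * ((F + (a1 + a2 + δ)) * ((F + (a1 + a2 + δ))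
            * (F + (a1 + a2 + δ)))))
          + 10 * ((F + (a1 + a2 + δ)) * ((F + (a1 + a2 + δ)) * ((F + (a1 + a2 + δ)) * (w + o))))
          + 10 * ((F + (a1 + a2 + δ)) * ((F + (a1 + a2 + δ)) * ((w + o) * (w + o))))
          + 5 * ((F + (a1 + a2 + δ)) * ((w + o) * ((w + o) * (w + o))))
          + (w + o) * ((w + o) * ((w + o) * (w + o))))
      + w * ((a1 + a2 + δ)
          * (5 * ((F + (a1 + a2 + δ)) * ((F + (a1 + a2 + δ)) * (F + (a1 + a2 + δ)))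
              + (F + (a1 + a2 + δ)) * ((F + (a1 + a2 + δ)) * F)
              + (F + (a1 + a2 + δ)) * (F * F) + F * (F * F))
            + 10 * ((F + (a1 + a2 + δ)) * ((F + (a1 + a2 + δ)) * (w + o))
              + (F + (a1 + a2 + δ)) * (F * (w + o)) + F * (F * (w + o)))
            + 10 * ((F + (a1 + a2 + δ)) * ((w + o) * (w + o)) + F * ((w + o) * (w + o)))
            + 5 * ((w + o) * ((w + o) * (w + o))))
        + o * (10 * (F * (F * F)) + 10 * (F * (F * (w + o)) + F * (F * w))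
            + 5 * (F * ((w + o) * (w + o)) + F * ((w + o) * w) + F * (w * w))
            + ((w + o) * ((w + o) * (w + o)) + (w + o) * ((w + o) * w)
              + (w + o) * (w * w) + w * (w * w)))) := by
  ring

/-- The sum class. -/
def BB (n : ℕ) : Submodule ℝ F3 := MP n ⊔ MT n

theorem BB_ofP {n : ℕ} {Φ : F3} (h : Φ ∈ MP n) : Φ ∈ BB n := Submodule.mem_sup_left h

theorem BB_ofT {n : ℕ} {Φ : F3} (h : Φ ∈ MT n) : Φ ∈ BB n := Submodule.mem_sup_right h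

section
variable (hM : S_MCL1)
include hM

theorem MT_mono {m m' : ℕ} (h : m ≤ m') {Φ : F3} (hΦ : Φ ∈ MT m') : Φ ∈ MT m := hM.1 m m' h hΦ

theorem MP_mono {m m' : ℕ} (h : m ≤ m') {Φ : F3} (hΦ : Φ ∈ MP m') : Φ ∈ MP m := hM.2.1 m m' h hΦ

theorem BB_mono {m m' : ℕ} (h : m ≤ m') {Φ : F3} (hΦ : Φ ∈ BB m') : Φ ∈ BB m :=
  sup_le_sup (hM.2.1 m m' h) (hM.1 m m' h) hΦ

theorem TT {m m' : ℕ} {Φ Ψ : F3} (h : Φ ∈ MT m) (h' : Ψ ∈ MT m') : Φ * Ψ ∈ MT (m + m') :=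
  hM.2.2.1 m m' Φ Ψ h h'

theorem PT {m m' : ℕ} {Φ Ψ : F3} (h : Φ ∈ MP m) (h' : Ψ ∈ MT m') : Φ * Ψ ∈ MT (m + m') :=
  hM.2.2.2.1 m m' Φ Ψ h h'

theorem PP {m m' : ℕ} {Φ Ψ : F3} (h : Φ ∈ MP m) (h' : Ψ ∈ MP m') : Φ * Ψ ∈ MP (m + m') :=
  hM.2.2.2.2.1 m m' Φ Ψ h h'

theorem TB {m m' : ℕ} {Φ Ψ : F3} (h : Φ ∈ MT m) (h' : Ψ ∈ BB m') : Φ * Ψ ∈ MT (m + m') := by
  obtain ⟨a, ha, b, hb, rfl⟩ := Submodule.mem_sup.1 h'
  rw [mul_add]
  refine Submodule.add_mem _ ?_ (TT hM h hb)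
  rw [mul_comm, add_comm]
  exact PT hM ha h

theorem BmulB {m m' : ℕ} {Φ Ψ : F3} (h : Φ ∈ BB m) (h' : Ψ ∈ BB m') : Φ * Ψ ∈ BB (m + m') := by
  obtain ⟨a, ha, b, hb, rfl⟩ := Submodule.mem_sup.1 h
  obtain ⟨c, hc, d, hd, rfl⟩ := Submodule.mem_sup.1 h'
  have e : (a + b) * (c + d) = a * c + (a * d + b * (c + d)) := by ring
  rw [e]
  refine Submodule.add_mem _ (BB_ofP (PP hM ha hc)) (BB_ofT ?_)
  exact Submodule.add_mem _ (PT hM ha hd) (TB hM hb h')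

theorem TB' {m m' n : ℕ} {Φ Ψ : F3} (h : Φ ∈ MT m) (h' : Ψ ∈ BB m') (hn : n ≤ m + m') :
    Φ * Ψ ∈ MT n := MT_mono hM hn (TB hM h h')

theorem BmulB' {m m' n : ℕ} {Φ Ψ : F3} (h : Φ ∈ BB m) (h' : Ψ ∈ BB m') (hn : n ≤ m + m') :
    Φ * Ψ ∈ BB n := BB_mono hM hn (BmulB hM h h')

theorem smT {m : ℕ} {Φ : F3} (h : Φ ∈ MT m) : Sm Φ :=
  hM.2.2.2.2.2.2.2.2.2.2.2.2.2.2.2.2.1 Φ (MT_mono hM (Nat.zero_le m) h)

theorem smP {m : ℕ} {Φ : F3} (h : Φ ∈ MP m) : Sm Φ :=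
  hM.2.2.2.2.2.2.2.2.2.2.2.2.2.2.2.2.2 Φ (MP_mono hM (Nat.zero_le m) h)

theorem dY_T {m : ℕ} {Φ : F3} (h : Φ ∈ MT m) : dY Φ ∈ MT m := hM.2.2.2.2.2.1 m Φ h

theorem lif_T {m : ℕ} {e : ℝ → ℝ → ℝ} (h : e ∈ LT) : lif m e ∈ MT m :=
  hM.2.2.2.2.2.2.2.2.2.2.2.2.2.1 m e h

theorem lif_P {m : ℕ} {e : ℝ → ℝ → ℝ} (h : e ∈ LP) : lif m e ∈ MP m :=
  hM.2.2.2.2.2.2.2.2.2.2.2.2.2.2.1 m e h

theorem q_T : (fun _ _ y => Q y : F3) ∈ MT 0 := hM.2.2.2.2.2.2.2.2.2.2.2.2.2.2.2.1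

theorem qpow_T (n : ℕ) : (fun _ _ y => Q y : F3) ^ (n + 1) ∈ MT 0 := by
  induction n with
  | zero => simpa using q_T hM
  | succ n ih =>
    rw [pow_succ]
    exact MT_mono hM (Nat.zero_le (0 + 0)) (TT hM ih (q_T hM))

/-- The remainder of the nonlinear term. -/
theorem rem_mem (j : ℕ) (hj : 1 ≤ j) (F w a1 a2 δ o k0 W1 : F3)
    (hF : F ∈ MP 1) (hw : w ∈ MT 1) (hF2 : F - k0 ∈ MP 2) (hw2 : w - W1 ∈ MT 2)
    (ha1 : a1 ∈ MP (j + 1)) (ha2 : a2 ∈ MP (j + 2)) (hδ : δ ∈ MP (j + 3)) (ho : o ∈ MT (j + 1))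
    (q : F3) (hq : q = fun _ _ y => Q y) :
    ((q + (F + a1 + a2 + δ) + (w + o)) ^ 5 - (F + a1 + a2 + δ) ^ 5 - q ^ 5)
      - ((q + F + w) ^ 5 - F ^ 5 - q ^ 5)
      - (5 : F3) * q ^ 4 * (a1 + o)
      - ((5 : F3) * q ^ 4 * a2 + (20 : F3) * q ^ 3 * (k0 + W1) * (a1 + o)) ∈ MT (j + 3) := by
  have hq1 : q ∈ MT 0 := by rw [hq]; exact q_T hM
  have hq2 : q ^ 2 ∈ MT 0 := by rw [hq]; exact qpow_T hM 1
  have hq3 : q ^ 3 ∈ MT 0 := by rw [hq]; exact qpow_T hM 2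
  have hq4 : q ^ 4 ∈ MT 0 := by rw [hq]; exact qpow_T hM 3
  -- elementary memberships
  have bF : F ∈ BB 1 := BB_ofP hF
  have bw : w ∈ BB 1 := BB_ofT hw
  have bS : F + w ∈ BB 1 := Submodule.add_mem _ bF bw
  have bd : a1 + a2 + δ ∈ BB (j + 1) := by
    refine Submodule.add_mem _ (Submodule.add_mem _ (BB_ofP ha1) ?_) ?_
    · exact BB_mono hM (by omega) (BB_ofP ha2)
    · exact BB_mono hM (by omega) (BB_ofP hδ)
  have bo : o ∈ BB (j + 1) := BB_ofT ho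
  have bD : a1 + a2 + δ + o ∈ BB (j + 1) := Submodule.add_mem _ bd bo
  have bD1 : a1 + a2 + δ + o ∈ BB 1 := BB_mono hM (by omega) bD
  have bd1 : a1 + a2 + δ ∈ BB 1 := BB_mono hM (by omega) bd
  have bo1 : o ∈ BB 1 := BB_mono hM (by omega) bo
  have b2 : (F - k0) + (w - W1) ∈ BB 2 := Submodule.add_mem _ (BB_ofP hF2) (BB_ofT hw2)
  have bk : k0 + W1 ∈ BB 1 := by
    have e : k0 + W1 = (F + w) - ((F - k0) + (w - W1)) := by ring
    rw [e]
    exact Submodule.sub_mem _ bS (BB_mono hM (by omega) b2)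
  have b3 : a2 + δ ∈ BB (j + 2) :=
    Submodule.add_mem _ (BB_ofP ha2) (BB_mono hM (by omega) (BB_ofP hδ))
  -- products of elements of `BB 1`
  have c11 : ∀ x y : F3, x ∈ BB 1 → y ∈ BB 1 → x * y ∈ BB 1 :=
    fun x y hx hy => BmulB' hM hx hy (by omega)
  have m11 : ∀ x y : F3, x ∈ BB 1 → y ∈ BB 1 → x * y ∈ BB 2 :=
    fun x y hx hy => BmulB' hM hx hy (by omega)
  rw [ident]
  have bS' := bS
  have bw' : w + o ∈ BB 1 := Submodule.add_mem _ bw bo1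
  have bF' : F + (a1 + a2 + δ) ∈ BB 1 := Submodule.add_mem _ bF bd1
  generalize F + (a1 + a2 + δ) = F' at *
  generalize w + o = w' at *
  generalize hS : F + w = S at *
  generalize a1 + a2 + δ + o = D at *
  generalize a1 + a2 + δ = d at *
  have X2 : (2 : F3) * ((F - k0 + (w - W1)) * D) + (2 : F3) * ((k0 + W1) * (a2 + δ)) + D * D
      ∈ BB (j + 3) := by
    refine Submodule.add_mem _ (Submodule.add_mem _ (num_mem _ 2 ?_) (num_mem _ 2 ?_)) ?_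
    · exact BmulB' hM b2 bD (by omega)
    · exact BmulB' hM bk b3 (by omega)
    · exact BmulB' hM bD bD (by omega)
  have X3 : (3 : F3) * (S * S) + (3 : F3) * (S * D) + D * D ∈ BB 2 := by
    refine Submodule.add_mem _ (Submodule.add_mem _ (num_mem _ 3 ?_) (num_mem _ 3 ?_)) ?_
    · exact m11 _ _ bS bS
    · exact m11 _ _ bS bD1
    · exact m11 _ _ bD1 bD1
  have X4 : (4 : F3) * (S * (S * S)) + (6 : F3) * (S * (S * D)) + (4 : F3) * (S * (D * D))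
      + D * (D * D) ∈ BB 2 := by
    refine Submodule.add_mem _ (Submodule.add_mem _ (Submodule.add_mem _ (num_mem _ 4 ?_)
      (num_mem _ 6 ?_)) (num_mem _ 4 ?_)) ?_
    · exact m11 _ _ bS (c11 _ _ bS bS)
    · exact m11 _ _ bS (c11 _ _ bS bD1)
    · exact m11 _ _ bS (c11 _ _ bD1 bD1)
    · exact m11 _ _ bD1 (c11 _ _ bD1 bD1)
  have X5 : (5 : F3) * (F' * (F' * (F' * F'))) + (10 : F3) * (F' * (F' * (F' * w')))
      + (10 : F3) * (F' * (F' * (w' * w'))) + (5 : F3) * (F' * (w' * (w' * w')))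
      + w' * (w' * (w' * w')) ∈ BB 2 := by
    refine Submodule.add_mem _ (Submodule.add_mem _ (Submodule.add_mem _ (Submodule.add_mem _
      (num_mem _ 5 ?_) (num_mem _ 10 ?_)) (num_mem _ 10 ?_)) (num_mem _ 5 ?_)) ?_
    · exact m11 _ _ bF' (c11 _ _ bF' (c11 _ _ bF' bF'))
    · exact m11 _ _ bF' (c11 _ _ bF' (c11 _ _ bF' bw'))
    · exact m11 _ _ bF' (c11 _ _ bF' (c11 _ _ bw' bw'))
    · exact m11 _ _ bF' (c11 _ _ bw' (c11 _ _ bw' bw'))
    · exact m11 _ _ bw' (c11 _ _ bw' (c11 _ _ bw' bw'))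
  have XA : (5 : F3) * (F' * (F' * F') + F' * (F' * F) + F' * (F * F) + F * (F * F))
      + (10 : F3) * (F' * (F' * w') + F' * (F * w') + F * (F * w'))
      + (10 : F3) * (F' * (w' * w') + F * (w' * w')) + (5 : F3) * (w' * (w' * w')) ∈ BB 1 := by
    refine Submodule.add_mem _ (Submodule.add_mem _ (Submodule.add_mem _ (num_mem _ 5 ?_)
      (num_mem _ 10 ?_)) (num_mem _ 10 ?_)) (num_mem _ 5 ?_)
    · exact Submodule.add_mem _ (Submodule.add_mem _ (Submodule.add_mem _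
        (c11 _ _ bF' (c11 _ _ bF' bF')) (c11 _ _ bF' (c11 _ _ bF' bF)))
        (c11 _ _ bF' (c11 _ _ bF bF))) (c11 _ _ bF (c11 _ _ bF bF))
    · exact Submodule.add_mem _ (Submodule.add_mem _ (c11 _ _ bF' (c11 _ _ bF' bw'))
        (c11 _ _ bF' (c11 _ _ bF bw'))) (c11 _ _ bF (c11 _ _ bF bw'))
    · exact Submodule.add_mem _ (c11 _ _ bF' (c11 _ _ bw' bw')) (c11 _ _ bF (c11 _ _ bw' bw'))
    · exact c11 _ _ bw' (c11 _ _ bw' bw')
  have XB : (10 : F3) * (F * (F * F)) + (10 : F3) * (F * (F * w') + F * (F * w))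
      + (5 : F3) * (F * (w' * w') + F * (w' * w) + F * (w * w))
      + (w' * (w' * w') + w' * (w' * w) + w' * (w * w) + w * (w * w)) ∈ BB 1 := by
    refine Submodule.add_mem _ (Submodule.add_mem _ (Submodule.add_mem _ (num_mem _ 10 ?_)
      (num_mem _ 10 ?_)) (num_mem _ 5 ?_)) ?_
    · exact c11 _ _ bF (c11 _ _ bF bF)
    · exact Submodule.add_mem _ (c11 _ _ bF (c11 _ _ bF bw')) (c11 _ _ bF (c11 _ _ bF bw))
    · exact Submodule.add_mem _ (Submodule.add_mem _ (c11 _ _ bF (c11 _ _ bw' bw'))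
        (c11 _ _ bF (c11 _ _ bw' bw))) (c11 _ _ bF (c11 _ _ bw bw))
    · exact Submodule.add_mem _ (Submodule.add_mem _ (Submodule.add_mem _
        (c11 _ _ bw' (c11 _ _ bw' bw')) (c11 _ _ bw' (c11 _ _ bw' bw)))
        (c11 _ _ bw' (c11 _ _ bw bw))) (c11 _ _ bw (c11 _ _ bw bw))
  refine Submodule.add_mem _ (Submodule.add_mem _ (Submodule.add_mem _ (Submodule.add_mem _
    (Submodule.add_mem _ (num_mem _ 5 ?_) (num_mem _ 10 ?_)) (num_mem _ 10 ?_))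
    (num_mem _ 5 ?_)) ?_) ?_
  · exact TB' hM hq4 (BB_ofP hδ) (by omega)
  · exact TB' hM hq3 X2 (by omega)
  · exact TB' hM hq2 (BmulB hM bD X3) (by omega)
  · exact TB' hM hq1 (BmulB hM bD X4) (by omega)
  · exact TB' hM ho X5 (by omega)
  · refine TB' hM hw (Submodule.add_mem (BB (j + 2)) ?_ ?_) (by omega)
    · exact BmulB' hM bd XA (by omega)
    · exact BmulB' hM bo XB (by omega)

end

end EXPaux

open EXPaux in
/-- **EXP.** -/
theorem thm_EXP (_hQ : S_QF) (_hE : S_ECL1) (hM : S_MCL1) : S_EXP := by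
  intro α k w1 j F w δ f1 f2 ω hj hF hw _hw1 hF2 hw2 hf1 hf2 hω hδ
  have ha1 := lif_P hM (m := j + 1) hf1
  have ha2 := lif_P hM (m := j + 2) hf2
  have ho := lif_T hM (m := j + 1) hω
  obtain ⟨q, hq⟩ : ∃ q : F3, q = fun _ _ y => Q y := ⟨_, rfl⟩
  have hR := rem_mem hM j hj F w _ _ δ _ _ _ hF hw hF2 hw2 ha1 ha2 hδ ho q hq
  obtain ⟨E, hEdef⟩ : ∃ E : F3, E =
    ((q + (F + lif (j + 1) f1 + lif (j + 2) f2 + δ) + (w + lif (j + 1) ω)) ^ 5
        - (F + lif (j + 1) f1 + lif (j + 2) f2 + δ) ^ 5 - q ^ 5)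
      - ((q + F + w) ^ 5 - F ^ 5 - q ^ 5)
      - (5 : F3) * q ^ 4 * (lif (j + 1) f1 + lif (j + 1) ω)
      - ((5 : F3) * q ^ 4 * lif (j + 2) f2
        + (20 : F3) * q ^ 3 * (lif 1 (fun _ _ => k) + lif 1 (fun _ y => w1 y))
          * (lif (j + 1) f1 + lif (j + 1) ω)) := ⟨_, rfl⟩
  rw [← hEdef] at hR
  have sq : Sm q := by rw [hq]; exact smT hM (q_T hM)
  have sF := smP hM hF
  have sw := smT hM hw
  have so := smT hM ho
  have sa1 := smP hM ha1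
  have sa2 := smP hM ha2
  have sk : Sm (lif 1 (fun _ _ => k) + lif 1 (fun _ y => w1 y)) := by
    have e : lif 1 (fun _ _ => k) + lif 1 (fun _ y => w1 y)
        = (F + w) - ((F - lif 1 (fun _ _ => k)) + (w - lif 1 (fun _ y => w1 y))) := by ring
    rw [e]
    exact (sF.add sw).sub ((smP hM hF2).add (smT hM hw2))
  have sE := smT hM hR
  have sdw := smT hM (dY_T hM hw)
  have sddw := smT hM (dY_T hM (dY_T hM hw))
  have sdo := smT hM (dY_T hM ho)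
  have sddo := smT hM (dY_T hM (dY_T hM ho))
  have sN : Sm ((q + F + w) ^ 5 - F ^ 5 - q ^ 5) :=
    ((((sq.add sF).add sw).pow 5).sub (sF.pow 5)).sub (sq.pow 5)
  have sG : Sm (dY (dY w) - w + ((q + F + w) ^ 5 - F ^ 5 - q ^ 5)) := (sddw.sub sw).add sN
  have sU1 : Sm (dY (dY (lif (j + 1) ω)) - lif (j + 1) ω
      + (5 : F3) * q ^ 4 * (lif (j + 1) f1 + lif (j + 1) ω)) :=
    (sddo.sub so).add (((Sm_num 5).mul (sq.pow 4)).mul (sa1.add so))
  have sU2 : Sm ((5 : F3) * q ^ 4 * lif (j + 2) f2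
        + (20 : F3) * q ^ 3 * (lif 1 (fun _ _ => k) + lif 1 (fun _ y => w1 y))
          * (lif (j + 1) f1 + lif (j + 1) ω)) :=
    (((Sm_num 5).mul (sq.pow 4)).mul sa2).add
      ((((Sm_num 20).mul (sq.pow 3)).mul sk).mul (sa1.add so))
  -- the functions to be differentiated
  have eU1 : dY (dY (lif (j + 1) ω)) - lif (j + 1) ω
      + (5 : F3) * q ^ 4 * (lif (j + 1) f1 + lif (j + 1) ω)
      = lif (j + 1) (fun l y => 5 * Q y ^ 4 * f1 l y - Lop (ω l) y) := by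
    rw [dY_lif, dY_lif]
    funext r l y
    simp only [lif, Lop, Pi.add_apply, Pi.sub_apply, Pi.mul_apply, Pi.pow_apply, Pi.ofNat_apply, hq]
    ring
  have eU2 : (5 : F3) * q ^ 4 * lif (j + 2) f2
        + (20 : F3) * q ^ 3 * (lif 1 (fun _ _ => k) + lif 1 (fun _ y => w1 y))
          * (lif (j + 1) f1 + lif (j + 1) ω)
      = lif (j + 2) (fun l y => 5 * Q y ^ 4 * f2 l y
              + 20 * Q y ^ 3 * (k + w1 y) * (f1 l y + ω l y)) := by
    funext r l y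
    simp only [lif, Pi.add_apply, Pi.mul_apply, Pi.pow_apply, Pi.ofNat_apply, hq]
    ring
  have eG : dY (dY (w + lif (j + 1) ω)) - (w + lif (j + 1) ω)
      + ((q + (F + lif (j + 1) f1 + lif (j + 2) f2 + δ) + (w + lif (j + 1) ω)) ^ 5
        - (F + lif (j + 1) f1 + lif (j + 2) f2 + δ) ^ 5 - q ^ 5)
      = (dY (dY w) - w + ((q + F + w) ^ 5 - F ^ 5 - q ^ 5))
        + (dY (dY (lif (j + 1) ω)) - lif (j + 1) ω
            + (5 : F3) * q ^ 4 * (lif (j + 1) f1 + lif (j + 1) ω))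
        + ((5 : F3) * q ^ 4 * lif (j + 2) f2
            + (20 : F3) * q ^ 3 * (lif 1 (fun _ _ => k) + lif 1 (fun _ y => w1 y))
              * (lif (j + 1) f1 + lif (j + 1) ω)) + E := by
    rw [dY_add sw so, dY_add sdw sdo, hEdef]
    ring
  have edG := congrArg dY eG
  rw [dY_add ((sG.add sU1).add sU2) sE, dY_add (sG.add sU1) sU2, dY_add sG sU1, eU1, eU2,
    dY_lif, dY_lif] at edG
  have eBk : ∀ (F w : F3) (r l y : ℝ), Bk α F w r l y = r * Dop α w r l y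
      + dY (dY (dY w) - w + ((q + F + w) ^ 5 - F ^ 5 - q ^ 5)) r l y
      - (2 * α + 1) * r * (Lam Q y + (w r l y / 2 + y * dY w r l y)) := by
    intro F w r l y
    rw [hq]
    rfl
  have key : Bk α (F + lif (j + 1) f1 + lif (j + 2) f2 + δ) (w + lif (j + 1) ω) - Bk α F w
      - lif (j + 1) (fun l y => deriv (fun y' => 5 * Q y' ^ 4 * f1 l y' - Lop (ω l) y') y)
      - lif (j + 2) (fun l y => 2 * α * ((j : ℝ) + 1) * ω l y + deriv (fun l' => ω l' y) l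
          + deriv (fun y' => 5 * Q y' ^ 4 * f2 l y'
              + 20 * Q y' ^ 3 * (k + w1 y') * (f1 l y' + ω l y')) y
          - (2 * α + 1) * (ω l y / 2 + y * deriv (ω l) y)) = dY E := by
    funext r l y
    have h1 := congrFun (congrFun (congrFun edG r) l) y
    have h2 := rDop_lif α (j + 1) ω r l y
    have h3 := congrFun (congrFun (congrFun (Dop_add α sw so) r) l) y
    have h4 := congrFun (congrFun (congrFun (dY_add sw so) r) l) y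
    have h5 := congrFun (congrFun (congrFun (dY_lif (j + 1) ω) r) l) y
    simp only [Pi.add_apply] at h1 h3 h4
    simp only [Pi.sub_apply]
    rw [eBk, eBk, h1, h3, h4, h5]
    simp only [Pi.add_apply, lif] at h2 ⊢
    push_cast at h2
    linear_combination h2
  rw [key]
  exact dY_T hM hR

end Pool.Agent.Helper41.KV
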