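import Pool.Agent.Helper48.KV.GoalsJ
import Pool.Agent.Helper5.KV.WGN

/-!
# Project KV (`MP_66be51_an`), packet JINEQ

The integrated inequality for the left functional at a fixed time.
-/

open MeasureTheory Set Filter Topology

noncomputable section

namespace Pool.Agent.Helper13.KV

open Pool.Agent.Helper33.KV Pool.Agent.Helper41.KV Pool.Agent.Helper48.KV

theorem HI_m0 {w : ℝ → ℝ} (h : HI w) : MemLp w 2 := by simpa using h.2 0

theorem HI_m1 {w : ℝ → ℝ} (h : HI w) : MemLp (deriv w) 2 := by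
  simpa [iteratedDeriv_one] using h.2 1

theorem HI_d {w : ℝ → ℝ} (h : HI w) (x : ℝ) : HasDerivAt w (deriv w x) x :=
  ((h.1.differentiable (by simp)) x).hasDerivAt

theorem HI_d1 {w : ℝ → ℝ} (h : HI w) (x : ℝ) :
    HasDerivAt (deriv w) (iteratedDeriv 2 w x) x := by
  have h1 : ContDiff ℝ (⊤ : ℕ∞) (deriv w) := by
    have := (contDiff_infty_iff_deriv (f := w)).1 h.1
    exact this.2
  have h2 := ((h1.differentiable (by simp)) x).hasDerivAt
  have e : iteratedDeriv 2 w x = deriv (deriv w) x := by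
    rw [iteratedDeriv_succ, iteratedDeriv_one]
  rw [e]
  exact h2

/-- An `H^∞` function is bounded. -/
theorem HI_bdd {w : ℝ → ℝ} (h : HI w) : ∃ B : ℝ, 0 ≤ B ∧ ∀ y, |w y| ≤ B := by
  have m0 := HI_m0 h
  have m1 := HI_m1 h
  have i0 : Integrable (fun y => w y ^ 2) := m0.integrable_sq
  have i01 : Integrable (fun y => w y * deriv w y) := m0.integrable_mul m1
  have hb : ∀ y, w y ^ 2 ≤ ∫ x, |2 * (w x * deriv w x)| := by
    intro y
    refine Pool.Agent.Helper5.KV.sup_bound (g := fun y => w y ^ 2)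
      (g' := fun x => 2 * (w x * deriv w x)) (fun x => ?_) i0 (i01.const_mul 2) y
    exact ((HI_d h x).fun_pow 2).congr_deriv (by push_cast; ring)
  refine ⟨Real.sqrt (∫ x, |2 * (w x * deriv w x)|), Real.sqrt_nonneg _, fun y => ?_⟩
  exact Real.abs_le_sqrt (hb y)

theorem int_bdd {W f : ℝ → ℝ} (hW : Continuous W) {M : ℝ} (hM : ∀ x, |W x| ≤ M)
    (hf : Integrable f) : Integrable (fun x => W x * f x) := by
  refine Integrable.bdd_mul (c := M) hf hW.aestronglyMeasurable ?_
  exact Eventually.of_forall fun y => by simpa [Real.norm_eq_abs] using hM y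

/-- `|w|^5` is square integrable and integrable against square integrable functions. -/
theorem int_pow5 {w f : ℝ → ℝ} (hw : HI w) (hf : MemLp f 2) :
    Integrable (fun x => |f x| * |w x| ^ 5) := by
  obtain ⟨B, hB0, hB⟩ := HI_bdd hw
  have h1 : Integrable (fun x => |f x| * |w x|) := hf.norm.integrable_mul (HI_m0 hw).norm
  have hc : Continuous w := hw.1.continuous
  have h2 := int_bdd (W := fun x => |w x| ^ 4) (hc.abs.pow 4) (M := B ^ 4)
    (fun x => by
      rw [abs_of_nonneg (by positivity)]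
      exact pow_le_pow_left₀ (abs_nonneg _) (hB x) 4) h1
  refine h2.congr (Eventually.of_forall fun x => ?_)
  simp only
  ring

theorem int_pow10 {w : ℝ → ℝ} (hw : HI w) : Integrable (fun x => w x ^ 10) := by
  obtain ⟨B, hB0, hB⟩ := HI_bdd hw
  have h1 : Integrable (fun x => w x ^ 2) := (HI_m0 hw).integrable_sq
  have hc : Continuous w := hw.1.continuous
  have h2 := int_bdd (W := fun x => w x ^ 8) (hc.pow 8) (M := B ^ 8)
    (fun x => by
      rw [abs_pow]
      exact pow_le_pow_left₀ (abs_nonneg _) (hB x) 8) h1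
  refine h2.congr (Eventually.of_forall fun x => ?_)
  simp only
  ring

theorem int8 {a1 a2 a3 a4 a5 a6 a7 a8 : ℝ → ℝ} (h1 : Integrable a1) (h2 : Integrable a2)
    (h3 : Integrable a3) (h4 : Integrable a4) (h5 : Integrable a5) (h6 : Integrable a6)
    (h7 : Integrable a7) (h8 : Integrable a8) (k1 k2 k3 k4 k5 k6 k7 k8 : ℝ) :
    Integrable (fun x => k1 * a1 x + k2 * a2 x + k3 * a3 x + k4 * a4 x + k5 * a5 x + k6 * a6 x
      + k7 * a7 x + k8 * a8 x) ∧
    ∫ x, (k1 * a1 x + k2 * a2 x + k3 * a3 x + k4 * a4 x + k5 * a5 x + k6 * a6 x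
      + k7 * a7 x + k8 * a8 x) = k1 * (∫ x, a1 x) + k2 * (∫ x, a2 x) + k3 * (∫ x, a3 x)
      + k4 * (∫ x, a4 x) + k5 * (∫ x, a5 x) + k6 * (∫ x, a6 x) + k7 * (∫ x, a7 x)
      + k8 * (∫ x, a8 x) := by
  have i1 := h1.const_mul k1
  have i2 := i1.add (h2.const_mul k2)
  have i3 := i2.add (h3.const_mul k3)
  have i4 := i3.add (h4.const_mul k4)
  have i5 := i4.add (h5.const_mul k5)
  have i6 := i5.add (h6.const_mul k6)
  have i7 := i6.add (h7.const_mul k7)
  have i8 := i7.add (h8.const_mul k8)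
  refine ⟨i8, ?_⟩
  have e8 := integral_add i7 (h8.const_mul k8)
  have e7 := integral_add i6 (h7.const_mul k7)
  have e6 := integral_add i5 (h6.const_mul k6)
  have e5 := integral_add i4 (h5.const_mul k5)
  have e4 := integral_add i3 (h4.const_mul k4)
  have e3 := integral_add i2 (h3.const_mul k3)
  have e2 := integral_add i1 (h2.const_mul k2)
  simp only [Pi.add_apply, integral_const_mul] at e2 e3 e4 e5 e6 e7 e8
  rw [e8, e7, e6, e5, e4, e3, e2]

/-- Double integration by parts. -/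
theorem ibp2 {b w : ℝ → ℝ} (hb : BI b) (hw : HI w) :
    Integrable (fun x => iteratedDeriv 2 b x * w x ^ 2) ∧
    2 * ∫ x, b x * (w x * iteratedDeriv 2 w x + deriv w x ^ 2)
      = ∫ x, iteratedDeriv 2 b x * w x ^ 2 := by
  obtain ⟨B0, hB0⟩ := hb.2 0
  obtain ⟨B1, hB1⟩ := hb.2 1
  obtain ⟨B2, hB2⟩ := hb.2 2
  rw [iteratedDeriv_zero] at hB0
  rw [iteratedDeriv_one] at hB1
  have c0 : Continuous b := hb.1.continuous
  have hb1 : ContDiff ℝ (⊤ : ℕ∞) (deriv b) :=
    ((contDiff_infty_iff_deriv (f := b)).1 hb.1).2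
  have c1 : Continuous (deriv b) := hb1.continuous
  have e2 : iteratedDeriv 2 b = deriv (deriv b) := by
    rw [iteratedDeriv_succ, iteratedDeriv_one]
  have c2 : Continuous (iteratedDeriv 2 b) := by
    rw [e2]
    exact ((contDiff_infty_iff_deriv (f := deriv b)).1 hb1).2.continuous
  have d0 : ∀ x, HasDerivAt b (deriv b x) x := fun x =>
    ((hb.1.differentiable (by simp)) x).hasDerivAt
  have d1 : ∀ x, HasDerivAt (deriv b) (iteratedDeriv 2 b x) x := fun x => by
    rw [e2]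
    exact ((hb1.differentiable (by simp)) x).hasDerivAt
  have m0 := HI_m0 hw
  have m1 := HI_m1 hw
  have m2 := hw.2 2
  have i00 : Integrable (fun x => w x ^ 2) := m0.integrable_sq
  have i11 : Integrable (fun x => deriv w x ^ 2) := m1.integrable_sq
  have i01 : Integrable (fun x => w x * deriv w x) := m0.integrable_mul m1
  have i02 : Integrable (fun x => w x * iteratedDeriv 2 w x) := m0.integrable_mul m2
  have j2 := int_bdd c2 hB2 i00
  refine ⟨j2, ?_⟩
  -- first
  have p1 := integral_mul_deriv_eq_deriv_mul_of_integrable (u := b)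
    (v := fun x => 2 * (w x * deriv w x)) (u' := deriv b)
    (v' := fun x => 2 * (w x * iteratedDeriv 2 w x + deriv w x ^ 2)) (fun x _ => d0 x)
    (fun x _ => (((HI_d hw x).fun_mul (HI_d1 hw x)).const_mul 2).congr_deriv (by ring))
    (int_bdd c0 hB0 ((i02.add i11).const_mul 2)) (int_bdd c1 hB1 (i01.const_mul 2))
    (int_bdd c0 hB0 (i01.const_mul 2))
  have p2 := integral_mul_deriv_eq_deriv_mul_of_integrable (u := deriv b)
    (v := fun x => w x ^ 2) (u' := iteratedDeriv 2 b)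
    (v' := fun x => 2 * (w x * deriv w x)) (fun x _ => d1 x)
    (fun x _ => ((HI_d hw x).fun_pow 2).congr_deriv (by push_cast; ring))
    (int_bdd c1 hB1 (i01.const_mul 2)) j2 (int_bdd c1 hB1 i00)
  rw [p2, neg_neg] at p1
  rw [← p1, ← integral_const_mul]
  exact integral_congr_ae (Eventually.of_forall fun x => by simp only; ring)

theorem jineq (h1 : S_JW) (h2 : S_CUT) (h3 : S_JFLD) (h4 : S_JWGN) (h5 : S_JPT) (h6 : S_SCL) :
    S_JINEQ := by
  intro α K κ A z hα hα1 hK hκ hκ1 hz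
  obtain ⟨Cc, Tc, hCc, hTc, hTc1, hTc2, hcut, hcutB⟩ := h2 α K hα hα1 hK
  obtain ⟨Cf, Tf, hCf, hTf, hTf1, hTf2, hfld⟩ := h3 α K κ A z hα hα1 hK hκ hκ1 hz
  obtain ⟨Cw, Tw, hCw, hTw, hTw1, hwgn⟩ := h4 α K κ A z hα hα1 hK hκ hκ1 hz
  obtain ⟨Cp, Tp, hCp, hTp, hTp1, hpt⟩ := h5 α K κ A z hα hα1 hK hκ hκ1 hz
  have hCfin : 1 ≤ 1 + 3 * Cf + 2 * Cp * Cw + Cp := by
    have : 0 < Cp * Cw := by positivity
    linarith
  refine ⟨1 + 3 * Cf + 2 * Cp * Cw + Cp, min (min Tc Tf) (min Tw Tp), hCfin,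
    lt_min (lt_min hTc hTf) (lt_min hTw hTp), ?_, ?_⟩
  · exact ((min_le_left _ _).trans (min_le_left _ _)).trans hTc1
  intro r t hr ht htT g gt w wt hg0 hgb hgI hgtI hwI hSI hTI hNd
  have htc : t ≤ Tc := htT.trans ((min_le_left _ _).trans (min_le_left _ _))
  have htf : t ≤ Tf := htT.trans ((min_le_left _ _).trans (min_le_right _ _))
  have htw : t ≤ Tw := htT.trans ((min_le_right _ _).trans (min_le_left _ _))
  have htp : t ≤ Tp := htT.trans ((min_le_right _ _).trans (min_le_right _ _))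
  have ht1 : t ≤ 1 := htc.trans hTc1
  have h43 : (4 * α + 3) * t ≤ 1 := by nlinarith
  obtain ⟨-, -, hl0, hl1, -, -, -, -, -, -, -, -⟩ := h6 α t hα hα1 ht h43
  obtain ⟨-, hd01, -, -, -, -, -, -, hmeas, -, -, -⟩ := hcut t ht htc
  obtain ⟨hBd, hBc⟩ := hcutB t t ht le_rfl htc
  have hcs : Continuous (cJ α K t) := (hBc.smooth t (left_mem_Icc.2 le_rfl)).continuous
  have hds : Continuous (dJ α K t) := (hBd.smooth t (left_mem_Icc.2 le_rfl)).continuous
  have hc0 : ∀ x, 0 ≤ cJ α K t x := fun x => pow_nonneg (hd01 x).1 10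
  have hc1 : ∀ x, cJ α K t x ≤ 1 := fun x => pow_le_one₀ (hd01 x).1 (hd01 x).2
  -- weights
  have hzc : Continuous z := hz.smooth.continuous
  have hz100 : ∀ x, 100 ≤ z x := hz.ge
  have hz0 : ∀ x, 0 < z x := fun x => by linarith [hz100 x]
  have hs0 : ∀ x, 0 < 3 * t + r * z x := fun x => by
    have := mul_pos hr (hz0 x)
    linarith
  have hsc : Continuous (fun x => 3 * t + r * z x) := continuous_const.add (continuous_const.mul hzc)
  have hhc : Continuous (fun x => hJ κ r t (z x)) := by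
    unfold hJ
    exact (hzc.div hsc (fun x => (hs0 x).ne')).rpow_const (fun x => Or.inr hκ.le)
  have hQc : Continuous (fun x => QJ κ r t (z x)) := by
    unfold QJ
    exact (continuous_const.mul hhc).div (hzc.mul hsc)
      (fun x => (mul_pos (hz0 x) (hs0 x)).ne')
  have hRc : Continuous (fun x => RJ κ r t (z x)) := by
    unfold RJ
    exact hQc.mul ((continuous_const.div hzc (fun x => (hz0 x).ne')).add
      (continuous_const.div hsc (fun x => (hs0 x).ne')))
  have hEc : Continuous (fun x => EJ κ r t (z x)) := by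
    unfold EJ
    exact (hzc.div_const _).mul hRc
  obtain ⟨H, hH⟩ : ∃ H, H = (1 / r) ^ κ := ⟨_, rfl⟩
  have hH0 : 0 ≤ H := by rw [hH]; positivity
  have hW : ∀ x, 0 < hJ κ r t (z x) ∧ hJ κ r t (z x) ≤ H ∧ 0 < QJ κ r t (z x) ∧
      QJ κ r t (z x) ≤ hJ κ r t (z x) ∧ 0 < RJ κ r t (z x) ∧ RJ κ r t (z x) ≤ hJ κ r t (z x) ∧
      0 < EJ κ r t (z x) ∧ EJ κ r t (z x) ≤ hJ κ r t (z x) ∧
      z x / (3 * t) * EJ κ r t (z x) ≤ 1 / t * hJ κ r t (z x) := by
    intro x
    obtain ⟨-, -, -, -, -, a1, -, -, a2, a3, a4, a5, a6, a7, -, -, -, -, -, -⟩ :=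
      h1 κ r t (z x) hκ hκ1 hr ht (hz0 x)
    have b1 : 3 * κ * t / z x ≤ 1 := by
      rw [div_le_one (hz0 x)]
      have : κ * t ≤ 1 / 4 * 1 := mul_le_mul hκ1 ht1 ht.le (by norm_num)
      linarith [hz100 x]
    have b2 : QJ κ r t (z x) ≤ hJ κ r t (z x) := by
      calc QJ κ r t (z x) ≤ 3 * κ * t / z x * hJ κ r t (z x) := a3
        _ ≤ 1 * hJ κ r t (z x) := mul_le_mul_of_nonneg_right b1 a1.le
        _ = _ := one_mul _
    have b3 : RJ κ r t (z x) ≤ QJ κ r t (z x) := by
      have : 2 / z x ≤ 1 := by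
        rw [div_le_one (hz0 x)]
        linarith [hz100 x]
      calc RJ κ r t (z x) ≤ 2 / z x * QJ κ r t (z x) := a5
        _ ≤ 1 * QJ κ r t (z x) := mul_le_mul_of_nonneg_right this a2.le
        _ = _ := one_mul _
    have b4 : EJ κ r t (z x) ≤ 2 * κ / z x * hJ κ r t (z x) := by
      calc EJ κ r t (z x) ≤ 2 / (3 * t) * QJ κ r t (z x) := a7
        _ ≤ 2 / (3 * t) * (3 * κ * t / z x * hJ κ r t (z x)) :=
            mul_le_mul_of_nonneg_left a3 (by positivity)
        _ = 2 * κ / z x * hJ κ r t (z x) := by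
            have := hz0 x
            field_simp
    have b5 : 2 * κ / z x ≤ 1 := by
      rw [div_le_one (hz0 x)]
      linarith [hz100 x]
    refine ⟨a1, ?_, a2, b2, a4, b3.trans b2, a6, ?_, ?_⟩
    · rw [hH]
      unfold hJ
      refine Real.rpow_le_rpow (div_nonneg (hz0 x).le (hs0 x).le) ?_ hκ.le
      rw [div_le_div_iff₀ (hs0 x) hr]
      linarith
    · calc EJ κ r t (z x) ≤ 2 * κ / z x * hJ κ r t (z x) := b4
        _ ≤ 1 * hJ κ r t (z x) := mul_le_mul_of_nonneg_right b5 a1.le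
        _ = _ := one_mul _
    · calc z x / (3 * t) * EJ κ r t (z x)
          ≤ z x / (3 * t) * (2 * κ / z x * hJ κ r t (z x)) :=
            mul_le_mul_of_nonneg_left b4 (div_nonneg (hz0 x).le (by positivity))
        _ = (2 * κ / 3) * (1 / t * hJ κ r t (z x)) := by
            have := hz0 x
            field_simp
        _ ≤ 1 * (1 / t * hJ κ r t (z x)) :=
            mul_le_mul_of_nonneg_right (by linarith) (by positivity)
        _ = _ := one_mul _
  -- bounded weights
  have wb : ∀ (W : ℝ → ℝ) (M : ℝ), (∀ x, 0 ≤ W x) → (∀ x, W x ≤ M) → 0 ≤ M →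
      ∀ x, |cJ α K t x * W x| ≤ M := by
    intro W M h0 hM hM0 x
    rw [abs_of_nonneg (mul_nonneg (hc0 x) (h0 x))]
    calc cJ α K t x * W x ≤ 1 * M := mul_le_mul (hc1 x) (hM x) (h0 x) zero_le_one
      _ = M := one_mul M
  have wbh := wb (fun x => hJ κ r t (z x)) H (fun x => (hW x).1.le) (fun x => (hW x).2.1) hH0
  have wbQ := wb (fun x => QJ κ r t (z x)) H (fun x => (hW x).2.2.1.le)
    (fun x => (hW x).2.2.2.1.trans (hW x).2.1) hH0
  have wbR := wb (fun x => RJ κ r t (z x)) H (fun x => (hW x).2.2.2.2.1.le)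
    (fun x => (hW x).2.2.2.2.2.1.trans (hW x).2.1) hH0
  have wbE := wb (fun x => EJ κ r t (z x)) H (fun x => (hW x).2.2.2.2.2.2.1.le)
    (fun x => (hW x).2.2.2.2.2.2.2.1.trans (hW x).2.1) hH0
  have wbE2 := wb (fun x => z x / (3 * t) * EJ κ r t (z x)) (1 / t * H)
    (fun x => mul_nonneg (div_nonneg (hz0 x).le (by positivity)) (hW x).2.2.2.2.2.2.1.le)
    (fun x => (hW x).2.2.2.2.2.2.2.2.trans
      (mul_le_mul_of_nonneg_left (hW x).2.1 (by positivity))) (by positivity)
  -- basic integrability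
  have m0 := HI_m0 hwI
  have m1 := HI_m1 hwI
  have m2 := hwI.2 2
  have i00 : Integrable (fun x => w t x ^ 2) := m0.integrable_sq
  have i11 : Integrable (fun x => deriv (w t) x ^ 2) := m1.integrable_sq
  have i22 : Integrable (fun x => iteratedDeriv 2 (w t) x ^ 2) := m2.integrable_sq
  have i02 : Integrable (fun x => w t x * iteratedDeriv 2 (w t) x) := m0.integrable_mul m2
  have J1 : Integrable (fun x => cJ α K t x * RJ κ r t (z x) *
      (iteratedDeriv 2 (w t) x + z x / (3 * t) * w t x) ^ 2) := by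
    have k1 := int_bdd (hcs.mul hRc) wbR i22
    have k2 := int_bdd (hcs.mul hEc) wbE (i02.const_mul 2)
    have k3 := int_bdd (hcs.mul ((hzc.div_const _).mul hEc)) wbE2 i00
    refine ((k1.add k2).add k3).congr (Eventually.of_forall fun x => ?_)
    simp only [Pi.add_apply, Pi.mul_apply]
    unfold EJ
    ring
  have J2 : Integrable (fun x => cJ α K t x * EJ κ r t (z x) *
      (w t x * iteratedDeriv 2 (w t) x + deriv (w t) x ^ 2)) :=
    int_bdd (hcs.mul hEc) wbE (i02.add i11)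
  have J3a : Integrable (fun x => cJ α K t x * hJ κ r t (z x) * w t x ^ 2) :=
    int_bdd (hcs.mul hhc) wbh i00
  have J3b : Integrable (fun x => cJ α K t x * QJ κ r t (z x) * deriv (w t) x ^ 2) :=
    int_bdd (hcs.mul hQc) wbQ i11
  have J3 : Integrable (fun x => cJ α K t x * (hJ κ r t (z x) * w t x ^ 2
      + QJ κ r t (z x) * deriv (w t) x ^ 2)) := by
    refine (J3a.add J3b).congr (Eventually.of_forall fun x => ?_)
    simp only [Pi.add_apply]
    ring
  have I3 : (∫ x, cJ α K t x * (hJ κ r t (z x) * w t x ^ 2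
      + QJ κ r t (z x) * deriv (w t) x ^ 2)) = Hc α K κ r z t (w t) + Qc α K κ r z t (w t) := by
    unfold Hc Qc
    rw [← integral_add J3a J3b]
    exact integral_congr_ae (Eventually.of_forall fun x => by simp only; ring)
  obtain ⟨⟨J5, I5⟩, ⟨J4, I4⟩, -⟩ := hwgn r t hr ht htw (w t) hwI
  have J6a : Integrable (nrI α t (w t)) := by
    have := (((i22.const_mul (lam α t ^ 4)).add (i11.const_mul (lam α t ^ 2))).add i00).add
      ((int_pow10 hwI).const_mul (lam α t ^ 4))
    refine this.congr (Eventually.of_forall fun x => ?_)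
    simp only [Pi.add_apply, nrI]
  have J6b : Integrable (fun x => ind α K t x * nrI α t (w t) x) := by
    refine Integrable.bdd_mul (c := 1) J6a ?_ ?_
    · exact ((measurable_const (a := (1:ℝ))).indicator hmeas).aestronglyMeasurable
    · refine Eventually.of_forall fun x => ?_
      unfold ind
      rw [Real.norm_eq_abs]
      by_cases hx : x ∈ nearS α K t
      · rw [indicator_of_mem hx]; simp
      · rw [indicator_of_notMem hx]; simp
  have J6 := J6b.const_mul (t ^ (-κ) / lam α t ^ 3)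
  have I6 : (∫ x, t ^ (-κ) / lam α t ^ 3 * (ind α K t x * nrI α t (w t) x))
      = t ^ (-κ) / lam α t ^ 3 * NRf α K t (w t) := integral_const_mul _ _
  have J7 : Integrable (fun x => cJ α K t x * hJ κ r t (z x) *
      ((|deriv (g t) x| + t / z x * |gt t x|) * |w t x| ^ 5)) := by
    have k1 := int_bdd (hcs.mul hhc) wbh (int_pow5 hwI (HI_m1 hgI))
    have k2 := int_bdd (W := fun x => cJ α K t x * (t / z x * hJ κ r t (z x)))
      (hcs.mul ((continuous_const.div hzc (fun x => (hz0 x).ne')).mul hhc)) (M := H)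
      (wb (fun x => t / z x * hJ κ r t (z x)) H
        (fun x => mul_nonneg (div_nonneg ht.le (hz0 x).le) (hW x).1.le)
        (fun x => by
          have : t / z x ≤ 1 := by
            rw [div_le_one (hz0 x)]
            linarith [hz100 x]
          calc t / z x * hJ κ r t (z x) ≤ 1 * H :=
                mul_le_mul this (hW x).2.1 (hW x).1.le zero_le_one
            _ = H := one_mul H) hH0) (int_pow5 hwI (HI_m0 hgtI))
    refine (k1.add k2).congr (Eventually.of_forall fun x => ?_)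
    simp only [Pi.add_apply, Pi.mul_apply]
    ring
  have J8 : Integrable (fun x => cJ α K t x * (hJ κ r t (z x) * (|srcS g w wt t x| * |w t x|)
            + QJ κ r t (z x) * (|deriv (srcS g w wt t) x| * |deriv (w t) x|)
            + QJ κ r t (z x) * (|srcS g w wt t x| * |w t x| ^ 5))) := by
    have k1 := int_bdd (hcs.mul hhc) wbh ((HI_m0 hSI).norm.integrable_mul m0.norm)
    have k2 := int_bdd (hcs.mul hQc) wbQ ((HI_m1 hSI).norm.integrable_mul m1.norm)
    have k3 := int_bdd (hcs.mul hQc) wbQ (int_pow5 hwI (HI_m0 hSI))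
    refine ((k1.add k2).add k3).congr (Eventually.of_forall fun x => ?_)
    simp only [Pi.add_apply, Pi.mul_apply, Real.norm_eq_abs]
    ring
  obtain ⟨hRI, hRE⟩ := int8 J1 J2 J3 J4 J5 J6 J7 J8 (-(5 / 2)) 6 Cp Cp Cp Cp Cp Cp
  have hmain := integral_mono hTI hRI (fun x => hpt r t hr ht htp g gt w wt hg0 hgb x)
  rw [hRE, I3, I6] at hmain
  -- the second term
  obtain ⟨hBI, hfx⟩ := (hfld r hr).2 t ht htf
  obtain ⟨jb, eb⟩ := ibp2 hBI hwI
  have hP0 : 0 ≤ t ^ (-κ) / lam α t ^ 3 := by positivity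
  have hI2 : 2 * (∫ x, cJ α K t x * EJ κ r t (z x) *
      (w t x * iteratedDeriv 2 (w t) x + deriv (w t) x ^ 2)) ≤
      Cf * Hc α K κ r z t (w t) + Cf * (t ^ (-κ) / lam α t ^ 3 * NRf α K t (w t)) := by
    rw [eb]
    have e1 : Cf * Hc α K κ r z t (w t) + Cf * (t ^ (-κ) / lam α t ^ 3 * NRf α K t (w t))
        = ∫ x, (Cf * (cJ α K t x * hJ κ r t (z x) * w t x ^ 2)
          + Cf * (t ^ (-κ) / lam α t ^ 3 * (ind α K t x * nrI α t (w t) x))) := by
      rw [integral_add (J3a.const_mul _) (J6.const_mul _), integral_const_mul,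
        integral_const_mul, I6]
      rfl
    rw [e1]
    refine integral_mono jb ((J3a.const_mul _).add (J6.const_mul _)) fun x => ?_
    simp only
    have hx := (hfx x).2.2.2.2.2.1
    have hind : 0 ≤ ind α K t x := by
      unfold ind
      exact indicator_nonneg (fun _ _ => zero_le_one) x
    have hnr : w t x ^ 2 ≤ nrI α t (w t) x := by
      unfold nrI
      have : 0 ≤ lam α t ^ 4 * iteratedDeriv 2 (w t) x ^ 2 + lam α t ^ 2 * deriv (w t) x ^ 2
        + lam α t ^ 4 * w t x ^ 10 := by positivity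
      linarith
    have hl3 : t ^ (-κ) / lam α t ^ 2 ≤ t ^ (-κ) / lam α t ^ 3 := by
      refine div_le_div_of_nonneg_left (by positivity) (by positivity) ?_
      exact pow_le_pow_of_le_one hl0.le hl1 (by norm_num)
    calc iteratedDeriv 2 (fun x => cJ α K t x * EJ κ r t (z x)) x * w t x ^ 2
        ≤ (Cf * (EJ κ r t (z x) * cJ α K t x) + Cf * t ^ (-κ) / lam α t ^ 2 * ind α K t x)
          * w t x ^ 2 := mul_le_mul_of_nonneg_right ((le_abs_self _).trans hx) (sq_nonneg _)
      _ = Cf * ((EJ κ r t (z x) * cJ α K t x) * w t x ^ 2)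
          + Cf * ((t ^ (-κ) / lam α t ^ 2) * (ind α K t x * w t x ^ 2)) := by ring
      _ ≤ Cf * ((cJ α K t x * hJ κ r t (z x)) * w t x ^ 2)
          + Cf * (t ^ (-κ) / lam α t ^ 3 * (ind α K t x * nrI α t (w t) x)) := by
          refine add_le_add (mul_le_mul_of_nonneg_left (mul_le_mul_of_nonneg_right ?_
            (sq_nonneg _)) hCf.le) (mul_le_mul_of_nonneg_left (mul_le_mul hl3
              (mul_le_mul_of_nonneg_left hnr hind) (by positivity) hP0) hCf.le)
          rw [mul_comm]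
          exact mul_le_mul_of_nonneg_left (hW x).2.2.2.2.2.2.2.1 (hc0 x)
  -- final bookkeeping
  have hX0 : 0 ≤ XJ α K κ r z t (w t) := integral_nonneg fun x =>
    mul_nonneg (mul_nonneg (hc0 x) (hW x).2.2.2.2.1.le) (sq_nonneg _)
  have hHc0 : 0 ≤ Hc α K κ r z t (w t) := integral_nonneg fun x =>
    mul_nonneg (mul_nonneg (hc0 x) (hW x).1.le) (sq_nonneg _)
  have hQc0 : 0 ≤ Qc α K κ r z t (w t) := integral_nonneg fun x =>
    mul_nonneg (mul_nonneg (hc0 x) (hW x).2.2.1.le) (sq_nonneg _)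
  have hNR0 : 0 ≤ NRf α K t (w t) := integral_nonneg fun x => by
    refine mul_nonneg (indicator_nonneg (fun _ _ => zero_le_one) x) ?_
    unfold nrI
    positivity
  have hN0 : 0 ≤ Nd α K t (w t) := integral_nonneg fun x => by positivity
  have hA7 : 0 ≤ ∫ x, cJ α K t x * hJ κ r t (z x) *
      ((|deriv (g t) x| + t / z x * |gt t x|) * |w t x| ^ 5) := integral_nonneg fun x => by
    refine mul_nonneg (mul_nonneg (hc0 x) (hW x).1.le) (mul_nonneg (add_nonneg (abs_nonneg _)
      (mul_nonneg (div_nonneg ht.le (hz0 x).le) (abs_nonneg _))) (by positivity))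
  have hA8 : 0 ≤ ∫ x, cJ α K t x * (hJ κ r t (z x) * (|srcS g w wt t x| * |w t x|)
            + QJ κ r t (z x) * (|deriv (srcS g w wt t) x| * |deriv (w t) x|)
            + QJ κ r t (z x) * (|srcS g w wt t x| * |w t x| ^ 5)) := integral_nonneg fun x => by
    refine mul_nonneg (hc0 x) (add_nonneg (add_nonneg (mul_nonneg (hW x).1.le (by positivity))
      (mul_nonneg (hW x).2.2.1.le (by positivity))) (mul_nonneg (hW x).2.2.1.le (by positivity)))
  have hX1 : (∫ x, cJ α K t x * RJ κ r t (z x) *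
      (iteratedDeriv 2 (w t) x + z x / (3 * t) * w t x) ^ 2) = XJ α K κ r z t (w t) := rfl
  rw [hX1] at hmain
  -- abstract the quantities
  generalize (∫ x, tInt (pJ α K κ r z) (pJt α K κ r z) (qJ α K κ r z) (qJt α K κ r z) g gt w wt
    t x) = Y at *
  generalize (∫ x, cJ α K t x * EJ κ r t (z x) *
      (w t x * iteratedDeriv 2 (w t) x + deriv (w t) x ^ 2)) = A2 at *
  generalize (∫ x, cJ α K t x * EJ κ r t (z x) * w t x ^ 6) = A4 at *
  generalize (∫ x, cJ α K t x * RJ κ r t (z x) * w t x ^ 10) = A5 at *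
  generalize (∫ x, cJ α K t x * hJ κ r t (z x) *
      ((|deriv (g t) x| + t / z x * |gt t x|) * |w t x| ^ 5)) = A7 at *
  generalize (∫ x, cJ α K t x * (hJ κ r t (z x) * (|srcS g w wt t x| * |w t x|)
            + QJ κ r t (z x) * (|deriv (srcS g w wt t) x| * |deriv (w t) x|)
            + QJ κ r t (z x) * (|srcS g w wt t x| * |w t x| ^ 5))) = A8 at *
  generalize XJ α K κ r z t (w t) = X at *
  generalize Hc α K κ r z t (w t) = Hh at *
  generalize Qc α K κ r z t (w t) = q9 at *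
  generalize NRf α K t (w t) = NR at *
  generalize Nd α K t (w t) = N at *
  generalize t ^ (-κ) / lam α t ^ 3 = P at *
  obtain ⟨s, hs⟩ : ∃ s, s = 1 / t := ⟨_, rfl⟩
  have hs0 : 0 ≤ s := by rw [hs]; positivity
  rw [← hs] at I4 I5
  have hNt : N ^ 2 / t = N ^ 2 * s := by rw [hs]; ring
  rw [hNt]
  obtain ⟨D, hD⟩ : ∃ D, D = Cp * Cw := ⟨_, rfl⟩
  have hD0 : 0 ≤ D := by rw [hD]; positivity
  obtain ⟨CC, hCC⟩ : ∃ CC, CC = 1 + 3 * Cf + 2 * Cp * Cw + Cp := ⟨_, rfl⟩
  rw [← hCC] at hNd ⊢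
  have hCC' : CC = 1 + 3 * Cf + 2 * D + Cp := by rw [hCC, hD]; ring
  have hCC1 : 1 ≤ CC := by rw [hCC']; linarith
  have hN1 : N ≤ 1 := by nlinarith
  have hDN : D * N ≤ 1 := by
    have : D * N ≤ CC * N := mul_le_mul_of_nonneg_right (by rw [hCC']; linarith) hN0
    linarith
  have hN2 : N ^ 2 ≤ 1 := pow_le_one₀ hN0 hN1
  have hN42 : N ^ 4 ≤ N ^ 2 := pow_le_pow_of_le_one hN0 hN1 (by norm_num)
  have hN41 : N ^ 4 ≤ N := by
    have := pow_le_pow_of_le_one hN0 hN1 (show 1 ≤ 4 by norm_num)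
    rwa [pow_one] at this
  have hDN4 : D * N ^ 4 ≤ 1 := (mul_le_mul_of_nonneg_left hN41 hD0).trans hDN
  have hDN42 : D * N ^ 4 ≤ D * N ^ 2 := mul_le_mul_of_nonneg_left hN42 hD0
  have hDN2 : D * N ^ 2 ≤ D := by
    have := mul_le_mul_of_nonneg_left hN2 hD0
    linarith
  have hPN : 0 ≤ P * NR := mul_nonneg hP0 hNR0
  -- the two nonlinear terms
  have k4 : Cp * A4 ≤ D * N ^ 2 * (s * q9 + Hh + P * NR) := by
    have := mul_le_mul_of_nonneg_left I4 hCp.le
    rw [hD]
    linarith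
  have k5 : Cp * A5 ≤ D * N ^ 4 * (X + s * Hh + P * NR) := by
    have := mul_le_mul_of_nonneg_left I5 hCp.le
    rw [hD]
    linarith
  have j1 : D * N ^ 4 * X ≤ X := by
    have := mul_le_mul_of_nonneg_right hDN4 hX0
    linarith
  have j2 : D * N ^ 4 * (s * Hh) ≤ D * N ^ 2 * (s * Hh) :=
    mul_le_mul_of_nonneg_right hDN42 (mul_nonneg hs0 hHc0)
  have j3 : D * N ^ 4 * (P * NR) ≤ D * (P * NR) :=
    mul_le_mul_of_nonneg_right (hDN42.trans hDN2) hPN
  have j4 : D * N ^ 2 * (P * NR) ≤ D * (P * NR) := mul_le_mul_of_nonneg_right hDN2 hPN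
  have j5 : D * N ^ 2 * Hh ≤ D * Hh := mul_le_mul_of_nonneg_right hDN2 hHc0
  have hDC : D ≤ CC := by rw [hCC']; linarith
  have j6 : D * N ^ 2 * (s * Hh) ≤ CC * (N ^ 2 * s * Hh) := by
    have := mul_le_mul_of_nonneg_right hDC (mul_nonneg (mul_nonneg (sq_nonneg N) hs0) hHc0)
    linarith
  have j7 : D * N ^ 2 * (s * q9) ≤ CC * (N ^ 2 * s * q9) := by
    have := mul_le_mul_of_nonneg_right hDC (mul_nonneg (mul_nonneg (sq_nonneg N) hs0) hQc0)
    linarith
  have j8 : (3 * Cf + Cp + D) * Hh ≤ CC * Hh :=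
    mul_le_mul_of_nonneg_right (by rw [hCC']; linarith) hHc0
  have j9 : Cp * q9 ≤ CC * q9 := mul_le_mul_of_nonneg_right (by rw [hCC']; linarith) hQc0
  have j10 : (3 * Cf + Cp + 2 * D) * (P * NR) ≤ CC * (P * NR) :=
    mul_le_mul_of_nonneg_right (by rw [hCC']; linarith) hPN
  have j11 : Cp * A7 ≤ CC * A7 := mul_le_mul_of_nonneg_right (by rw [hCC']; linarith) hA7
  have j12 : Cp * A8 ≤ CC * A8 := mul_le_mul_of_nonneg_right (by rw [hCC']; linarith) hA8
  have e1 : D * N ^ 2 * (s * q9 + Hh + P * NR)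
      = D * N ^ 2 * (s * q9) + D * N ^ 2 * Hh + D * N ^ 2 * (P * NR) := by ring
  have e2 : D * N ^ 4 * (X + s * Hh + P * NR)
      = D * N ^ 4 * X + D * N ^ 4 * (s * Hh) + D * N ^ 4 * (P * NR) := by ring
  have e3 : CC * ((1 + N ^ 2 * s) * (Hh + q9))
      = CC * Hh + CC * q9 + CC * (N ^ 2 * s * Hh) + CC * (N ^ 2 * s * q9) := by ring
  rw [e1] at k4
  rw [e2] at k5
  rw [e3]
  linarith

end Pool.Agent.Helper13.KV
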